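import Mathlib
import Pool.Agent.TH277.CS.A
import Pool.Agent.TH277.HT.D
set_option autoImplicit false
set_option linter.unusedSectionVars false

/-! Rough convex phases of two variables on the square: the extension operator at a fixed time. -/

namespace Pool.Agent.TH277.CB

open MeasureTheory Set Complex
open scoped ENNReal NNReal
open Pool.Agent.TH277.CS (s2 D1 D1_meas D1_fin decay_sign sup sup_meas)
open Pool.Agent.TH277.HT (ch ch_norm ch_cont ch_add)

/-- the square -/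
def Q2 : Set (ℝ × ℝ) := Icc (-1, -1) (1, 1)

lemma Q2_meas : MeasurableSet Q2 := measurableSet_Icc

lemma Q2_vol : volume Q2 = 4 := by
  unfold Q2
  rw [← Icc_prod_Icc, Measure.volume_eq_prod, Measure.prod_prod, Real.volume_Icc]
  rw [← ENNReal.ofReal_mul (by norm_num)]
  norm_num

lemma Q2_fin : volume Q2 < ⊤ := by
  rw [Q2_vol]
  norm_num

lemma Q2_s2 {x : ℝ × ℝ} (hx : x ∈ Q2) : s2 x ≤ 2 := by
  have h1 : -1 ≤ x.1 := hx.1.1
  have h2 : -1 ≤ x.2 := hx.1.2
  have h3 : x.1 ≤ 1 := hx.2.1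
  have h4 : x.2 ≤ 1 := hx.2.2
  show x.1 ^ 2 + x.2 ^ 2 ≤ 2
  nlinarith

/-- The decay of rough convex phases on convex subsets of the square. -/
theorem decay4 {K : Set (ℝ × ℝ)} {Ψ : ℝ × ℝ → ℝ} {σ τ : ℝ} (hσ : σ = 1 ∨ σ = -1) (hτ : 1 ≤ τ)
    (hK : K ⊆ Q2) (hk : ConvexOn ℝ K (fun x => σ * Ψ x - τ * s2 x))
    (hm : Measurable (K.indicator fun x => cexp (I * Ψ x))) :
    ‖∫ x, K.indicator (fun x => cexp (I * Ψ x)) x‖ ≤ 32 * (1 + Real.log (16 * τ)) / τ := by
  set K' : Set (ℝ × ℝ) := (fun x : ℝ × ℝ => (2 : ℝ) • x) ⁻¹' K with hK'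
  set Ψ' : ℝ × ℝ → ℝ := fun x => Ψ ((2 : ℝ) • x) with hΨ'
  have hind : ∀ x : ℝ × ℝ, K'.indicator (fun x => cexp (I * Ψ' x)) x =
      K.indicator (fun x => cexp (I * Ψ x)) ((2 : ℝ) • x) := by
    intro x
    by_cases h : (2 : ℝ) • x ∈ K
    · rw [indicator_of_mem h, indicator_of_mem (show x ∈ K' from h)]
    · rw [indicator_of_notMem h, indicator_of_notMem (show x ∉ K' from h)]
  have hKd : K' ⊆ D1 := by
    intro x hx
    have h1 : s2 ((2 : ℝ) • x) ≤ 2 := Q2_s2 (hK hx)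
    have h2 : s2 ((2 : ℝ) • x) = 4 * s2 x := by
      unfold s2 Pool.Agent.TH277.CP.sq
      simp only [Prod.smul_fst, Prod.smul_snd, smul_eq_mul]
      ring
    rw [h2] at h1
    show s2 x ≤ 1
    linarith
  have hk' : ConvexOn ℝ K' (fun x => σ * Ψ' x - (4 * τ) * s2 x) := by
    have h1 := hk.comp_linearMap ((2 : ℝ) • (LinearMap.id : (ℝ × ℝ) →ₗ[ℝ] (ℝ × ℝ)))
    refine ⟨h1.1, ?_⟩
    intro x hx y hy a b ha hb hab
    have h2 := h1.2 hx hy ha hb hab
    have hb' : b = 1 - a := by linarith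
    subst hb'
    simp only [Function.comp_apply, LinearMap.smul_apply, LinearMap.id_apply, s2,
      Pool.Agent.TH277.CP.sq, smul_eq_mul,
      Prod.fst_add, Prod.snd_add, Prod.smul_fst, Prod.smul_snd, hΨ'] at h2 ⊢
    nlinarith [h2]
  have hm' : Measurable (K'.indicator fun x => cexp (I * Ψ' x)) := by
    have h1 : (K'.indicator fun x => cexp (I * Ψ' x)) =
        (K.indicator fun x => cexp (I * Ψ x)) ∘ fun x : ℝ × ℝ => (2 : ℝ) • x := by
      ext x
      exact hind x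
    rw [h1]
    exact hm.comp (measurable_const_smul (2 : ℝ))
  have h1 := decay_sign (τ := 4 * τ) hσ (by linarith) hKd hk' hm'
  have h2 : ∫ x, K'.indicator (fun x => cexp (I * Ψ' x)) x =
      (1 / 4 : ℝ) • ∫ x, K.indicator (fun x => cexp (I * Ψ x)) x := by
    simp only [hind]
    rw [Measure.integral_comp_smul volume (K.indicator fun x => cexp (I * Ψ x)) (2 : ℝ)]
    congr 1
    have hfr : Module.finrank ℝ (ℝ × ℝ) = 2 := by simp
    rw [hfr]
    norm_num
  rw [h2, norm_smul, Real.norm_of_nonneg (by norm_num)] at h1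
  have h3 : 32 * (1 + Real.log (4 * (4 * τ))) / (4 * τ) =
      (1 / 4) * (32 * (1 + Real.log (16 * τ)) / τ) := by
    rw [show 4 * (4 * τ) = 16 * τ by ring]
    field_simp
  rw [h3] at h1
  linarith

/-- `f = c e^{iφ} 1_K` with `K` a convex subset of the square, `|c| ≤ 1`, and `σ φ + T |x|²` convex
on `K`. -/
def IsAtom (σ T : ℝ) (f : ℝ × ℝ → ℂ) : Prop :=
  ∃ (K : Set (ℝ × ℝ)) (φ : ℝ × ℝ → ℝ) (c : ℂ), K ⊆ Q2 ∧ ‖c‖ ≤ 1 ∧
    ConvexOn ℝ K (fun x => σ * φ x + T * (x.1 ^ 2 + x.2 ^ 2)) ∧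
    f = K.indicator fun x => c * cexp (I * φ x)

/-- the phase -/
noncomputable def pq (y : ℝ × ℝ) (t : ℝ) (x : ℝ × ℝ) : ℂ := ch (x.1 * y.1 + x.2 * y.2 + s2 x * t)

lemma pq_norm (y : ℝ × ℝ) (t : ℝ) (x : ℝ × ℝ) : ‖pq y t x‖ = 1 := ch_norm _

lemma s2_cont : Continuous s2 := Pool.Agent.TH277.CP.sq_cont

lemma pq_cont : Continuous fun p : ((ℝ × ℝ) × ℝ) × (ℝ × ℝ) => pq p.1.1 p.1.2 p.2 := by
  unfold pq
  have h : Continuous fun p : ((ℝ × ℝ) × ℝ) × (ℝ × ℝ) => s2 p.2 := s2_cont.comp continuous_snd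
  exact ch_cont.comp (by fun_prop)

lemma pq_exp (y : ℝ × ℝ) (t : ℝ) (x : ℝ × ℝ) : pq y t x =
    cexp (I * ((2 * Real.pi * (x.1 * y.1 + x.2 * y.2 + s2 x * t) : ℝ) : ℂ)) := by
  unfold pq ch
  congr 1
  push_cast
  ring

variable {S : Type} [MeasurableSpace S] {σ T : ℝ}

lemma atom_supp {f : ℝ × ℝ → ℂ} (hf : IsAtom σ T f) {x : ℝ × ℝ} (hx : x ∉ Q2) : f x = 0 := by
  obtain ⟨K, φ, c, hK, hc, hk, rfl⟩ := hf
  exact indicator_of_notMem (fun h => hx (hK h)) _

lemma atom_norm {f : ℝ × ℝ → ℂ} (hf : IsAtom σ T f) (x : ℝ × ℝ) : ‖f x‖ ≤ 1 := by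
  obtain ⟨K, φ, c, hK, hc, hk, rfl⟩ := hf
  by_cases hx : x ∈ K
  · rw [indicator_of_mem hx, norm_mul, mul_comm I, norm_exp_ofReal_mul_I, mul_one]
    exact hc
  · rw [indicator_of_notMem hx, norm_zero]
    exact zero_le_one

/-- The decay of an atom. -/
lemma atom_decay (hσ : σ = 1 ∨ σ = -1) {f : ℝ × ℝ → ℂ} (hf : IsAtom σ T f) (hm : Measurable f)
    (y : ℝ × ℝ) (t : ℝ) (hτ : 1 ≤ 2 * Real.pi * σ * t - T) :
    ‖∫ x, pq y t x * f x‖ ≤
      32 * (1 + Real.log (16 * (2 * Real.pi * σ * t - T))) / (2 * Real.pi * σ * t - T) := by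
  obtain ⟨K, φ, c, hK, hc, hk, rfl⟩ := hf
  set τ : ℝ := 2 * Real.pi * σ * t - T with hτd
  have hlog : 0 ≤ Real.log (16 * τ) := Real.log_nonneg (by linarith)
  have hD : 0 ≤ 32 * (1 + Real.log (16 * τ)) / τ := by positivity
  rcases eq_or_ne c 0 with hc0 | hc0
  · have h2 : ∀ x, pq y t x * K.indicator (fun x => c * cexp (I * φ x)) x = 0 := by
      intro x
      rw [hc0]
      simp
    simp only [h2, integral_zero, norm_zero]
    exact hD
  set Ψ : ℝ × ℝ → ℝ := fun x => φ x + 2 * Real.pi * (x.1 * y.1 + x.2 * y.2 + s2 x * t) with hΨ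
  have hphi : Measurable (K.indicator fun x => cexp (I * φ x)) := by
    have h2 : (K.indicator fun x => cexp (I * φ x)) =
        fun x => c⁻¹ * K.indicator (fun x => c * cexp (I * φ x)) x := by
      ext x
      by_cases hx : x ∈ K
      · rw [indicator_of_mem hx, indicator_of_mem hx, ← mul_assoc, inv_mul_cancel₀ hc0, one_mul]
      · rw [indicator_of_notMem hx, indicator_of_notMem hx, mul_zero]
    rw [h2]
    exact hm.const_mul _
  have hpsi : ∀ x, K.indicator (fun x => cexp (I * Ψ x)) x =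
      pq y t x * K.indicator (fun x => cexp (I * φ x)) x := by
    intro x
    by_cases hx : x ∈ K
    · rw [indicator_of_mem hx, indicator_of_mem hx, pq_exp, ← Complex.exp_add]
      congr 1
      simp only [hΨ]
      push_cast
      ring
    · rw [indicator_of_notMem hx, indicator_of_notMem hx, mul_zero]
  have hpm : Measurable (pq y t) := by
    have h := pq_cont.comp (Continuous.prodMk_right ((y, t) : (ℝ × ℝ) × ℝ))
    exact h.measurable
  have hpsim : Measurable (K.indicator fun x => cexp (I * Ψ x)) := by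
    have h2 : (K.indicator fun x => cexp (I * Ψ x)) =
        fun x => pq y t x * K.indicator (fun x => cexp (I * φ x)) x := funext hpsi
    rw [h2]
    exact hpm.mul hphi
  have hconv : ConvexOn ℝ K (fun x => σ * Ψ x - τ * s2 x) := by
    have h5 : ConvexOn ℝ K (fun x : ℝ × ℝ => 2 * Real.pi * σ * (x.1 * y.1 + x.2 * y.2)) := by
      refine ⟨hk.1, ?_⟩
      intro x hx z hz a b ha' hb hab
      simp only [Prod.fst_add, Prod.snd_add, Prod.smul_fst, Prod.smul_snd, smul_eq_mul]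
      apply le_of_eq
      ring
    have h6 := hk.add h5
    have h7 : (fun x => σ * Ψ x - τ * s2 x) = ((fun x : ℝ × ℝ =>
        σ * φ x + T * (x.1 ^ 2 + x.2 ^ 2)) +
        fun x : ℝ × ℝ => 2 * Real.pi * σ * (x.1 * y.1 + x.2 * y.2)) := by
      ext x
      have h8 : s2 x = x.1 ^ 2 + x.2 ^ 2 := rfl
      simp only [Pi.add_apply, hΨ, hτd, h8]
      ring
    rw [h7]
    exact h6
  have h2 : ∫ x, pq y t x * K.indicator (fun x => c * cexp (I * φ x)) x =
      c * ∫ x, K.indicator (fun x => cexp (I * Ψ x)) x := by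
    rw [← integral_const_mul]
    apply integral_congr_ae
    refine ae_of_all _ fun x => ?_
    simp only
    rw [hpsi]
    by_cases hx : x ∈ K
    · rw [indicator_of_mem hx, indicator_of_mem hx]
      ring
    · rw [indicator_of_notMem hx, indicator_of_notMem hx]
      ring
  rw [h2, norm_mul]
  have h3 := decay4 hσ hτ hK hconv hpsim
  calc ‖c‖ * _ ≤ 1 * (32 * (1 + Real.log (16 * τ)) / τ) :=
        mul_le_mul hc h3 (norm_nonneg _) zero_le_one
    _ = _ := one_mul _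

lemma set_eq {F : ℝ × ℝ → ℂ} (h : ∀ x, x ∉ Q2 → F x = 0) : ∫ x, F x = ∫ x in Q2, F x := by
  symm
  exact setIntegral_eq_integral_of_forall_compl_eq_zero h

lemma sup_supp (ν : Measure S) {g : S → ℝ × ℝ → ℂ} (ha : ∀ s, IsAtom σ T (g s)) {x : ℝ × ℝ}
    (hx : x ∉ Q2) : sup ν g x = 0 := by
  unfold sup
  simp only [atom_supp (ha _) hx, integral_zero]

lemma sup_norm (ν : Measure S) [IsFiniteMeasure ν] {g : S → ℝ × ℝ → ℂ}
    (ha : ∀ s, IsAtom σ T (g s)) (x : ℝ × ℝ) : ‖sup ν g x‖ ≤ ν.real univ := by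
  unfold sup
  calc ‖∫ s, g s x ∂ν‖ ≤ 1 * ν.real univ :=
        norm_integral_le_of_norm_le_const (ae_of_all _ fun s => atom_norm (ha s) x)
    _ = ν.real univ := one_mul _

lemma ext_swap (ν : Measure S) [IsFiniteMeasure ν] {g : S → ℝ × ℝ → ℂ}
    (hm : Measurable (Function.uncurry g)) (ha : ∀ s, IsAtom σ T (g s)) (y : ℝ × ℝ) (t : ℝ) :
    ∫ x, pq y t x * sup ν g x = ∫ s, (∫ x, pq y t x * g s x) ∂ν := by
  have h1 : ∀ s, ∫ x, pq y t x * g s x = ∫ x in Q2, pq y t x * g s x := by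
    intro s
    apply set_eq
    intro x hx
    rw [atom_supp (ha s) hx, mul_zero]
  have h2 : ∫ x, pq y t x * sup ν g x = ∫ x in Q2, pq y t x * sup ν g x := by
    apply set_eq
    intro x hx
    rw [sup_supp ν ha hx, mul_zero]
  simp only [h1]
  rw [h2]
  have h3 : ∀ x, pq y t x * sup ν g x = ∫ s, pq y t x * g s x ∂ν := by
    intro x
    unfold sup
    rw [integral_const_mul]
  simp only [h3]
  apply integral_integral_swap
  have hfin : IsFiniteMeasure ((volume : Measure (ℝ × ℝ)).restrict Q2) :=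
    ⟨by rw [Measure.restrict_apply_univ]; exact Q2_fin⟩
  refine Integrable.of_bound (C := 1) ?_ ?_
  · apply Measurable.aestronglyMeasurable
    have hpm : Measurable (pq y t) := by
      have h := pq_cont.comp (Continuous.prodMk_right ((y, t) : (ℝ × ℝ) × ℝ))
      exact h.measurable
    exact (hpm.comp measurable_fst).mul (hm.comp measurable_swap)
  · refine ae_of_all _ fun p => ?_
    simp only [Function.uncurry]
    rw [norm_mul, pq_norm, one_mul]
    exact atom_norm (ha _) _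

lemma triv {f : ℝ × ℝ → ℂ} (hf : IsAtom σ T f) (y : ℝ × ℝ) (t : ℝ) :
    ‖∫ x, pq y t x * f x‖ ≤ 4 := by
  rw [set_eq (F := fun x => pq y t x * f x) (fun x hx => by
    rw [atom_supp hf hx, mul_zero])]
  calc ‖∫ x in Q2, pq y t x * f x‖ ≤ 1 * (volume Q2).toReal := by
        apply norm_setIntegral_le_of_norm_le_const Q2_fin
        intro x _
        rw [norm_mul, pq_norm, one_mul]
        exact atom_norm hf x
    _ = 4 := by
        rw [Q2_vol]
        norm_num

/-- the constant -/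
noncomputable def Kc (ε : ℝ) : ℝ := 32 * (4 + 1 / ε)

lemma Kc_pos {ε : ℝ} (hε : 0 < ε) : 0 < Kc ε := by
  unfold Kc
  positivity

/-- The pointwise bound. -/
lemma sup_decay {ε : ℝ} (hε : 0 < ε) (hσ : σ = 1 ∨ σ = -1) (ν : Measure S)
    [IsFiniteMeasure ν] {g : S → ℝ × ℝ → ℂ} (hm : Measurable (Function.uncurry g))
    (ha : ∀ s, IsAtom σ T (g s)) (y : ℝ × ℝ) (t : ℝ) :
    ‖∫ x, pq y t x * sup ν g x‖ ≤
      ν.real univ * (Kc ε * (max 1 (2 * Real.pi * σ * t - T)) ^ (-(1 - ε))) := by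
  rw [ext_swap ν hm ha y t]
  have key : ∀ s, ‖∫ x, pq y t x * g s x‖ ≤
      Kc ε * (max 1 (2 * Real.pi * σ * t - T)) ^ (-(1 - ε)) := by
    intro s
    set τ : ℝ := 2 * Real.pi * σ * t - T with hτ
    rcases le_or_gt 1 τ with h0 | h0
    · have hgm : Measurable (g s) := hm.comp measurable_prodMk_left
      have h1 := atom_decay hσ (ha s) hgm y t h0
      refine h1.trans ?_
      rw [← hτ, max_eq_right h0]
      have hτ0 : 0 < τ := by linarith
      have h2 : Real.log τ ≤ τ ^ ε / ε := Real.log_le_rpow_div hτ0.le hε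
      have h3 : 1 ≤ τ ^ ε := Real.one_le_rpow h0 hε.le
      have h4 : τ ^ (-(1 - ε)) = τ ^ ε / τ := by
        rw [show -(1 - ε) = ε - 1 by ring, Real.rpow_sub hτ0, Real.rpow_one]
      rw [h4, div_le_iff₀ hτ0]
      have h5 : Kc ε * (τ ^ ε / τ) * τ = 32 * (4 * τ ^ ε + τ ^ ε / ε) := by
        unfold Kc
        field_simp
      rw [h5, Real.log_mul (by norm_num) hτ0.ne']
      have h6 : Real.log 16 ≤ 3 := by
        have h7 : Real.log 16 = 4 * Real.log 2 := by
          rw [show (16 : ℝ) = 2 ^ 4 by norm_num, Real.log_pow]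
          norm_num
        have := Real.log_two_lt_d9
        linarith
      linarith
    · rw [max_eq_left h0.le, Real.one_rpow, mul_one]
      refine (triv (ha s) y t).trans ?_
      have : 0 < 1 / ε := by positivity
      unfold Kc
      linarith
  calc ‖∫ s, (∫ x, pq y t x * g s x) ∂ν‖ ≤
        (Kc ε * (max 1 (2 * Real.pi * σ * t - T)) ^ (-(1 - ε))) * ν.real univ :=
        norm_integral_le_of_norm_le_const (ae_of_all _ key)
    _ = _ := mul_comm _ _

lemma scale_neg (H : ℝ × ℝ → ℝ≥0∞) (hH : Measurable H) :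
    ∫⁻ y, H ((-(2 * Real.pi)) • y) ≤ ∫⁻ y, H y := by
  have h0 : -(2 * Real.pi) ≠ 0 := by
    have := Real.pi_pos
    linarith
  have h1 := Measure.map_addHaar_smul (volume : Measure (ℝ × ℝ)) h0
  have h2 : ∫⁻ y, H ((-(2 * Real.pi)) • y) =
      ∫⁻ y, H y ∂(Measure.map ((-(2 * Real.pi)) • · : ℝ × ℝ → ℝ × ℝ) volume) :=
    (lintegral_map hH (measurable_const_smul _)).symm
  rw [h2, h1, lintegral_smul_measure, smul_eq_mul]
  have hfr : Module.finrank ℝ (ℝ × ℝ) = 2 := by simp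
  have h3 : ENNReal.ofReal |((-(2 * Real.pi)) ^ Module.finrank ℝ (ℝ × ℝ))⁻¹| ≤ 1 := by
    rw [hfr, neg_sq, ENNReal.ofReal_le_one, abs_of_nonneg (by positivity)]
    apply inv_le_one_of_one_le₀
    apply one_le_pow₀
    linarith [Real.pi_gt_three]
  calc _ ≤ 1 * ∫⁻ t, H t := by gcongr
    _ = _ := one_mul _

lemma E_meas (f : ℝ × ℝ → ℂ) (hf : StronglyMeasurable f) :
    StronglyMeasurable fun p : (ℝ × ℝ) × ℝ => ∫ x, pq p.1 p.2 x * f x := by
  have h2 : StronglyMeasurable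
      (Function.uncurry fun (p : (ℝ × ℝ) × ℝ) (x : ℝ × ℝ) => pq p.1 p.2 x * f x) := by
    apply StronglyMeasurable.mul
    · exact pq_cont.stronglyMeasurable
    · exact hf.comp_measurable measurable_snd
  exact h2.integral_prod_right

/-- The extension operator in two variables. -/
noncomputable def E2 (f : ℝ × ℝ → ℂ) (y : ℝ × ℝ) (t : ℝ) : ℂ := ∫ x, pq y t x * f x

lemma E2_meas (f : ℝ × ℝ → ℂ) (hf : StronglyMeasurable f) :
    StronglyMeasurable fun p : (ℝ × ℝ) × ℝ => E2 f p.1 p.2 := E_meas f hf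


/-- the `L²` bound at a fixed time -/
lemma sup_planch (ν : Measure S) [IsFiniteMeasure ν] {g : S → ℝ × ℝ → ℂ}
    (hm : Measurable (Function.uncurry g)) (ha : ∀ s, IsAtom σ T (g s)) (t : ℝ) :
    ∫⁻ y : ℝ × ℝ, ‖E2 (sup ν g) y t‖ₑ ^ 2 ≤
      ENNReal.ofReal ((2 * Real.pi) ^ 2) * (4 * ν univ ^ 2) := by
  unfold E2
  set F : ℝ × ℝ → ℂ := fun x => ch (s2 x * t) * sup ν g x with hF
  have hcm : Measurable fun x : ℝ × ℝ => ch (s2 x * t) :=
    (ch_cont.comp (s2_cont.mul continuous_const)).measurable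
  have hFm : AEStronglyMeasurable F :=
    hcm.aestronglyMeasurable.mul (sup_meas ν hm).aestronglyMeasurable
  have hFn : ∀ x, ‖F x‖ = ‖sup ν g x‖ := by
    intro x
    simp only [hF]
    rw [norm_mul, ch_norm, one_mul]
  have hFs : ∀ x, x ∉ Q2 → F x = 0 := by
    intro x hx
    simp only [hF]
    rw [sup_supp ν ha hx, mul_zero]
  have hfin : IsFiniteMeasure ((volume : Measure (ℝ × ℝ)).restrict Q2) :=
    ⟨by rw [Measure.restrict_apply_univ]; exact Q2_fin⟩
  have hFi : F = Q2.indicator F := by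
    ext x
    by_cases hx : x ∈ Q2
    · rw [indicator_of_mem hx]
    · rw [indicator_of_notMem hx, hFs x hx]
  have hbd : ∀ x, ‖F x‖ ≤ ν.real univ := fun x => (hFn x).le.trans (sup_norm ν ha x)
  have h1 : Integrable F := by
    rw [hFi, integrable_indicator_iff Q2_meas]
    exact IntegrableOn.of_bound Q2_fin hFm.restrict _ (ae_of_all _ hbd)
  have h2 : MemLp F 2 := by
    rw [hFi, memLp_indicator_iff_restrict Q2_meas]
    exact MemLp.of_bound hFm.restrict _ (ae_of_all _ hbd)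
  have h3 := Pool.Agent.TH277.CP.plancherel2 F h1 h2
  set Φ : ℝ × ℝ → ℝ≥0∞ := fun X =>
    ‖∫ x : ℝ × ℝ, cexp (-(I * ((x.1 * X.1 + x.2 * X.2 : ℝ) : ℂ))) * F x‖ₑ ^ 2 with hΦ
  have hΦm : Measurable Φ := by
    have h4 : Measurable (Function.uncurry fun (X : ℝ × ℝ) (x : ℝ × ℝ) =>
        cexp (-(I * ((x.1 * X.1 + x.2 * X.2 : ℝ) : ℂ))) * F x) := by
      apply Measurable.mul
      · fun_prop
      · exact (hcm.mul (sup_meas ν hm).measurable).comp measurable_snd
    exact (h4.stronglyMeasurable.integral_prod_right (ν := volume)).measurable.enorm.pow_const 2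
  have h5 : ∀ y : ℝ × ℝ, ‖∫ x, pq y t x * sup ν g x‖ₑ ^ 2 = Φ ((-(2 * Real.pi)) • y) := by
    intro y
    simp only [hΦ]
    congr 2
    apply integral_congr_ae
    refine ae_of_all _ fun x => ?_
    simp only [hF]
    rw [← mul_assoc]
    congr 1
    unfold pq ch
    rw [← Complex.exp_add]
    congr 1
    simp only [Prod.smul_fst, Prod.smul_snd, smul_eq_mul]
    push_cast
    ring
  simp only [h5]
  refine (scale_neg Φ hΦm).trans ?_
  rw [h3]
  gcongr
  calc ∫⁻ x, ‖F x‖ₑ ^ 2 ≤ ∫⁻ x, Q2.indicator (fun _ => ν univ ^ 2) x := by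
        apply lintegral_mono
        intro x
        simp only
        by_cases hx : x ∈ Q2
        · rw [indicator_of_mem hx]
          gcongr
          rw [← ofReal_norm]
          calc ENNReal.ofReal ‖F x‖ ≤ ENNReal.ofReal (ν.real univ) :=
                ENNReal.ofReal_le_ofReal (hbd x)
            _ = ν univ := by
                rw [Measure.real, ENNReal.ofReal_toReal (measure_ne_top ν univ)]
        · rw [indicator_of_notMem hx, hFs x hx, enorm_zero]
          simp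
    _ = 4 * ν univ ^ 2 := by
        rw [lintegral_indicator Q2_meas, setLIntegral_const, Q2_vol, mul_comm]

/-- the constant of the next lemma -/
noncomputable def Kq (ε q : ℝ) : ℝ≥0∞ :=
  ENNReal.ofReal (Kc ε) ^ (q - 2) * (ENNReal.ofReal ((2 * Real.pi) ^ 2) * 4)

lemma Kq_ne_top {ε q : ℝ} (hq : 2 < q) : Kq ε q ≠ ⊤ := by
  unfold Kq
  apply ENNReal.mul_ne_top
  · exact ENNReal.rpow_ne_top_of_nonneg (by linarith) ENNReal.ofReal_ne_top
  · exact ENNReal.mul_ne_top ENNReal.ofReal_ne_top (by norm_num)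

lemma E2_decay {ε : ℝ} (hε : 0 < ε) (hσ : σ = 1 ∨ σ = -1) (ν : Measure S)
    [IsFiniteMeasure ν] {g : S → ℝ × ℝ → ℂ} (hm : Measurable (Function.uncurry g))
    (ha : ∀ s, IsAtom σ T (g s)) (y : ℝ × ℝ) (t : ℝ) :
    ‖E2 (sup ν g) y t‖ ≤
      ν.real univ * (Kc ε * (max 1 (2 * Real.pi * σ * t - T)) ^ (-(1 - ε))) :=
  sup_decay hε hσ ν hm ha y t

attribute [local irreducible] E2

lemma E2t_meas (f : ℝ × ℝ → ℂ) (hf : StronglyMeasurable f) (t : ℝ) :
    Measurable fun y : ℝ × ℝ => ‖E2 f y t‖ₑ := by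
  have h : Measurable fun y : ℝ × ℝ => ((y, t) : (ℝ × ℝ) × ℝ) :=
    measurable_id.prodMk measurable_const
  have h2 : Measurable fun p : (ℝ × ℝ) × ℝ => ‖E2 f p.1 p.2‖ₑ := (E2_meas f hf).enorm
  exact h2.comp h

/-- The `L^q` bound at a fixed time. -/
lemma sup_Lq {ε q : ℝ} (hε : 0 < ε) (hq : 2 < q) (hσ : σ = 1 ∨ σ = -1) (ν : Measure S)
    [IsFiniteMeasure ν] {g : S → ℝ × ℝ → ℂ} (hm : Measurable (Function.uncurry g))
    (ha : ∀ s, IsAtom σ T (g s)) (t : ℝ) :
    ∫⁻ y : ℝ × ℝ, ‖E2 (sup ν g) y t‖ₑ ^ q ≤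
      Kq ε q * ν univ ^ q *
        ENNReal.ofReal ((max 1 (2 * Real.pi * σ * t - T)) ^ (-((1 - ε) * (q - 2)))) := by
  have hq2 : 0 < q - 2 := by linarith
  set m : ℝ := max 1 (2 * Real.pi * σ * t - T) with hmdef
  have hm1 : 1 ≤ m := le_max_left _ _
  have hm0 : 0 < m := by linarith
  have hK := Kc_pos hε
  set B : ℝ≥0∞ := ν univ * (ENNReal.ofReal (Kc ε) * ENNReal.ofReal (m ^ (-(1 - ε)))) with hB
  set Φ : ℝ × ℝ → ℝ≥0∞ := fun y => ‖E2 (sup ν g) y t‖ₑ with hΦ
  have hΦm : Measurable Φ := E2t_meas (sup ν g) (sup_meas ν hm) t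
  have hle : ∀ y : ℝ × ℝ, Φ y ≤ B := by
    intro y
    have h1 := E2_decay hε hσ ν hm ha y t
    rw [← hmdef] at h1
    simp only [hΦ]
    rw [← ofReal_norm]
    refine (ENNReal.ofReal_le_ofReal h1).trans (le_of_eq ?_)
    rw [hB, ENNReal.ofReal_mul measureReal_nonneg, ENNReal.ofReal_mul hK.le,
      Measure.real, ENNReal.ofReal_toReal (measure_ne_top ν univ)]
  have hpt : ∀ y : ℝ × ℝ, Φ y ^ q ≤ B ^ (q - 2) * Φ y ^ 2 := by
    intro y
    have h1 : Φ y ^ q = Φ y ^ (q - 2) * Φ y ^ 2 := by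
      have h2 : Φ y ^ 2 = Φ y ^ (2 : ℝ) := by
        rw [← ENNReal.rpow_natCast]
        norm_num
      rw [h2, ← ENNReal.rpow_add_of_nonneg _ _ hq2.le (by norm_num)]
      congr 1
      ring
    rw [h1]
    gcongr
    exact hle y
  calc ∫⁻ y, Φ y ^ q ≤ ∫⁻ y, B ^ (q - 2) * Φ y ^ 2 := lintegral_mono hpt
    _ = B ^ (q - 2) * ∫⁻ y, Φ y ^ 2 := lintegral_const_mul _ (hΦm.pow_const 2)
    _ ≤ B ^ (q - 2) * (ENNReal.ofReal ((2 * Real.pi) ^ 2) * (4 * ν univ ^ 2)) := by
        gcongr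
        exact sup_planch ν hm ha t
    _ = _ := by
        have h3 : ν univ ^ q = ν univ ^ (q - 2) * ν univ ^ 2 := by
          have h2 : ν univ ^ 2 = ν univ ^ (2 : ℝ) := by
            rw [← ENNReal.rpow_natCast]
            norm_num
          rw [h2, ← ENNReal.rpow_add_of_nonneg _ _ hq2.le (by norm_num)]
          congr 1
          ring
        have h4 : ENNReal.ofReal (m ^ (-(1 - ε))) ^ (q - 2) =
            ENNReal.ofReal (m ^ (-((1 - ε) * (q - 2)))) := by
          rw [ENNReal.ofReal_rpow_of_nonneg (by positivity) hq2.le, ← Real.rpow_mul hm0.le]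
          congr 2
          ring
        rw [hB, ENNReal.mul_rpow_of_nonneg _ _ hq2.le, ENNReal.mul_rpow_of_nonneg _ _ hq2.le, h4,
          h3]
        unfold Kq
        ring

end Pool.Agent.TH277.CB
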