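import Mathlib
import Pool.Agent.TH277.CB.A
import Pool.Agent.TH277.HT.E
set_option autoImplicit false
set_option linter.unusedSectionVars false

/-! Blocks of coordinates. -/

namespace Pool.Agent.TH277.CB

open MeasureTheory Set Complex
open scoped ENNReal NNReal
open Pool.Agent.TH277.CS (s2 sup sup_meas)
open Pool.Agent.TH277.HT (ch ch_norm ch_cont ch_add ch_sum EE EE_meas Sch Adm E1 E1_meas E1t_meas
  EE_mult lint_pi mix)

variable {m₁ m₂ n : ℕ}

/-- the coordinates grouped into blocks -/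
def Phi (e : Fin m₁ ⊕ (Fin m₂ ⊕ Fin m₂) ≃ Fin n) (ξ : Fin n → ℝ) :
    (Fin m₁ → ℝ) × (Fin m₂ → ℝ × ℝ) :=
  (fun i => ξ (e (Sum.inl i)), fun j => (ξ (e (Sum.inr (Sum.inl j))), ξ (e (Sum.inr (Sum.inr j)))))

lemma Phi_mp (e : Fin m₁ ⊕ (Fin m₂ ⊕ Fin m₂) ≃ Fin n) : MeasurePreserving (Phi e) := by
  have h1 := (volume_measurePreserving_piCongrLeft (fun _ : Fin n => ℝ) e).symm
  have h2 := volume_measurePreserving_sumPiEquivProdPi
    (fun _ : Fin m₁ ⊕ (Fin m₂ ⊕ Fin m₂) => ℝ)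
  have h3 := volume_measurePreserving_sumPiEquivProdPi (fun _ : Fin m₂ ⊕ Fin m₂ => ℝ)
  have h4 := (volume_measurePreserving_arrowProdEquivProdArrow ℝ ℝ (Fin m₂)).symm
  have h5 := ((MeasurePreserving.id (volume : Measure (Fin m₁ → ℝ))).prod (h4.comp h3)).comp
    (h2.comp h1)
  exact h5

lemma lint_pi2 {α : Type*} [MeasureSpace α] [SigmaFinite (volume : Measure α)] {n : ℕ}
    (f : Fin n → α → ℝ≥0∞) (hf : ∀ i, Measurable (f i)) :
    ∫⁻ x : Fin n → α, ∏ i, f i (x i) = ∏ i, ∫⁻ u, f i u := by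
  induction n with
  | zero =>
    rw [volume_pi]
    simp
  | succ n ih =>
    have h1 := (measurePreserving_piFinSuccAbove (fun _ : Fin (n + 1) => (volume : Measure α)) 0).symm
    rw [volume_pi, ← h1.lintegral_comp_emb (MeasurableEquiv.measurableEmbedding _)]
    have h2 : ∀ p : α × (Fin n → α), ∏ i, f i ((MeasurableEquiv.piFinSuccAbove
        (fun _ : Fin (n + 1) => α) 0).symm p i) = f 0 p.1 * ∏ i, f (Fin.succ i) (p.2 i) := by
      intro p
      rw [Fin.prod_univ_succ]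
      simp [MeasurableEquiv.piFinSuccAbove_symm_apply, Fin.insertNthEquiv]
    simp only [h2]
    have hm : Measurable fun r : Fin n → α => ∏ i, f (Fin.succ i) (r i) :=
      Finset.measurable_prod _ fun i _ => (hf _).comp (measurable_pi_apply i)
    rw [lintegral_prod_mul (hf 0).aemeasurable hm.aemeasurable, Fin.prod_univ_succ]
    congr 1
    rw [← volume_pi]
    exact ih _ fun i => hf _

lemma sum_blk (e : Fin m₁ ⊕ (Fin m₂ ⊕ Fin m₂) ≃ Fin n) (F : Fin n → ℝ) :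
    ∑ k, F k = ∑ i, F (e (Sum.inl i)) +
      ∑ j, (F (e (Sum.inr (Sum.inl j))) + F (e (Sum.inr (Sum.inr j)))) := by
  rw [← e.sum_comp, Fintype.sum_sum_type, Fintype.sum_sum_type, ← Finset.sum_add_distrib]

lemma mem_cube (e : Fin m₁ ⊕ (Fin m₂ ⊕ Fin m₂) ≃ Fin n) (ξ : Fin n → ℝ) :
    ξ ∈ Icc (-1 : Fin n → ℝ) 1 ↔
      (Phi e ξ).1 ∈ Icc (-1 : Fin m₁ → ℝ) 1 ∧ ∀ j, (Phi e ξ).2 j ∈ Q2 := by
  constructor
  · intro h
    refine ⟨⟨fun i => h.1 _, fun i => h.2 _⟩, fun j => ⟨⟨h.1 _, h.1 _⟩, ⟨h.2 _, h.2 _⟩⟩⟩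
  · rintro ⟨h1, h2⟩
    have h3 : ∀ k, -1 ≤ ξ k ∧ ξ k ≤ 1 := by
      intro k
      obtain ⟨k', rfl⟩ := e.surjective k
      rcases k' with i | j | j
      · exact ⟨h1.1 i, h1.2 i⟩
      · exact ⟨(h2 j).1.1, (h2 j).2.1⟩
      · exact ⟨(h2 j).1.2, (h2 j).2.2⟩
    exact ⟨fun k => (h3 k).1, fun k => (h3 k).2⟩

/-- The extension operator on products over the blocks. -/
lemma EE_blk (e : Fin m₁ ⊕ (Fin m₂ ⊕ Fin m₂) ≃ Fin n) {s : (Fin m₁ → ℝ) → ℂ}
    (hs : StronglyMeasurable s) {G : Fin m₂ → ℝ × ℝ → ℂ} (hG : ∀ j, StronglyMeasurable (G j))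
    (h0 : ∀ j x, x ∉ Q2 → G j x = 0) (x : Fin n → ℝ) (t : ℝ) :
    EE (fun ξ => s (Phi e ξ).1 * ∏ j, G j ((Phi e ξ).2 j)) (x, t) =
      EE s ((Phi e x).1, t) * ∏ j, E2 (G j) ((Phi e x).2 j) t := by
  set A : (Fin m₁ → ℝ) → ℂ := (Icc (-1 : Fin m₁ → ℝ) 1).indicator fun ξ =>
    ch (∑ i, ξ i * (Phi e x).1 i + (∑ i, ξ i ^ 2) * t) * s ξ with hA
  set B : Fin m₂ → ℝ × ℝ → ℂ := fun j z => pq ((Phi e x).2 j) t z * G j z with hB
  have hAm : StronglyMeasurable A := by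
    apply StronglyMeasurable.indicator _ measurableSet_Icc
    apply StronglyMeasurable.mul _ hs
    exact (ch_cont.comp (by fun_prop : Continuous fun ξ : Fin m₁ → ℝ =>
      (∑ i, ξ i * (Phi e x).1 i + (∑ i, ξ i ^ 2) * t))).stronglyMeasurable
  have hBm : ∀ j, StronglyMeasurable (B j) := by
    intro j
    apply StronglyMeasurable.mul _ (hG j)
    have h := pq_cont.comp (Continuous.prodMk_right (((Phi e x).2 j, t) : (ℝ × ℝ) × ℝ))
    exact h.stronglyMeasurable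
  set F : (Fin m₁ → ℝ) × (Fin m₂ → ℝ × ℝ) → ℂ := fun z => A z.1 * ∏ j, B j (z.2 j) with hF
  have hFm : StronglyMeasurable F := by
    apply StronglyMeasurable.mul
    · exact hAm.comp_measurable measurable_fst
    · apply Finset.stronglyMeasurable_fun_prod
      intro j _
      exact (hBm j).comp_measurable ((measurable_pi_apply j).comp measurable_snd)
  have h1 : EE (fun ξ => s (Phi e ξ).1 * ∏ j, G j ((Phi e ξ).2 j)) (x, t) =
      ∫ ξ : Fin n → ℝ, F (Phi e ξ) := by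
    unfold EE
    rw [← integral_indicator measurableSet_Icc]
    apply integral_congr_ae
    refine ae_of_all _ fun ξ => ?_
    simp only
    by_cases hξ : ξ ∈ Icc (-1 : Fin n → ℝ) 1
    · rw [indicator_of_mem hξ]
      have h2 := (mem_cube e ξ).1 hξ
      simp only [hF, hA, hB]
      rw [indicator_of_mem h2.1, Finset.prod_mul_distrib]
      have h3 : ch (∑ j, ξ j * x j + (∑ j, ξ j ^ 2) * t) =
          ch (∑ i, (Phi e ξ).1 i * (Phi e x).1 i + (∑ i, (Phi e ξ).1 i ^ 2) * t) *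
            ∏ j, pq ((Phi e x).2 j) t ((Phi e ξ).2 j) := by
        unfold pq
        rw [← ch_sum, ← ch_add]
        congr 1
        rw [sum_blk e, sum_blk e, add_mul, Finset.sum_mul Finset.univ
          (fun j => ξ (e (Sum.inr (Sum.inl j))) ^ 2 + ξ (e (Sum.inr (Sum.inr j))) ^ 2) t]
        rw [Finset.sum_add_distrib (s := (Finset.univ : Finset (Fin m₂)))
          (f := fun j => ((Phi e ξ).2 j).1 * ((Phi e x).2 j).1 +
            ((Phi e ξ).2 j).2 * ((Phi e x).2 j).2)]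
        have h4 : ∀ j, s2 ((Phi e ξ).2 j) =
            ξ (e (Sum.inr (Sum.inl j))) ^ 2 + ξ (e (Sum.inr (Sum.inr j))) ^ 2 := fun j => rfl
        simp only [h4]
        simp only [Phi]
        ring
      rw [h3]
      ring
    · rw [indicator_of_notMem hξ]
      have h2 : ¬ ((Phi e ξ).1 ∈ Icc (-1 : Fin m₁ → ℝ) 1 ∧ ∀ j, (Phi e ξ).2 j ∈ Q2) :=
        fun h => hξ ((mem_cube e ξ).2 h)
      simp only [hF, hA, hB]
      by_cases h3 : (Phi e ξ).1 ∈ Icc (-1 : Fin m₁ → ℝ) 1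
      · have h4 : ∃ j, (Phi e ξ).2 j ∉ Q2 := by
          by_contra hc
          push Not at hc
          exact h2 ⟨h3, hc⟩
        obtain ⟨j, hj⟩ := h4
        rw [Finset.prod_eq_zero (Finset.mem_univ j), mul_zero]
        rw [h0 j _ hj, mul_zero]
      · rw [indicator_of_notMem h3, zero_mul]
  have h2 : ∫ ξ : Fin n → ℝ, F (Phi e ξ) = ∫ z, F z := by
    have h3 := (Phi_mp e).map_eq
    rw [← h3, integral_map (Phi_mp e).measurable.aemeasurable hFm.aestronglyMeasurable]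
  rw [h1, h2, hF]
  have h3 : ∫ z : (Fin m₁ → ℝ) × (Fin m₂ → ℝ × ℝ), A z.1 * ∏ j, B j (z.2 j) =
      (∫ ξ, A ξ) * ∫ η : Fin m₂ → ℝ × ℝ, ∏ j, B j (η j) :=
    integral_prod_mul A fun η : Fin m₂ → ℝ × ℝ => ∏ j, B j (η j)
  rw [h3, integral_fintype_prod_volume_eq_prod]
  congr 1
  unfold EE
  rw [hA, integral_indicator measurableSet_Icc]

end Pool.Agent.TH277.CB
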