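import Mathlib
import Pool.Agent.TH277.CB.B
set_option autoImplicit false
set_option linter.unusedSectionVars false

/-! The extension estimate for products over blocks. -/

namespace Pool.Agent.TH277.CB

open MeasureTheory Set Complex
open scoped ENNReal NNReal
open Pool.Agent.TH277.CS (s2 sup sup_meas)
open Pool.Agent.TH277.HT (ch ch_norm ch_cont ch_add ch_sum EE EE_meas Sch Adm E1 E1_meas E1t_meas
  EE_mult lint_pi mix)
open Pool.Agent.TH277.CP (tint tint_lt)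

attribute [local irreducible] E1 E2

variable {m₁ m₂ n : ℕ}

/-- multilinear forms at a fixed time -/
lemma sch_time {q : ℝ} (hq0 : 0 < q) {H : Type} [NormedAddCommGroup H] [InnerProductSpace ℂ H]
    [CompleteSpace H] (M : ContinuousMultilinearMap ℂ (fun _ : Fin m₁ => H) ℂ)
    (hM : ‖M‖ ≤ 1) {a : Fin m₁ → ℝ → H} (ha : ∀ j, Adm (a j)) (t : ℝ) :
    ∫⁻ x : Fin m₁ → ℝ, ‖EE (fun ξ => M (fun j => a j (ξ j))) (x, t)‖ₑ ^ q ≤
      ∏ j, ∫⁻ x : ℝ, ‖E1 (a j) x t‖ₑ ^ q := by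
  have h2 : ∀ x : Fin m₁ → ℝ, ‖EE (fun ξ => M (fun j => a j (ξ j))) (x, t)‖ₑ ^ q ≤
      ∏ j, ‖E1 (a j) (x j) t‖ₑ ^ q := by
    intro x
    rw [EE_mult M a ha (x, t), ENNReal.prod_rpow_of_nonneg hq0.le]
    gcongr
    rw [← ofReal_norm]
    calc ENNReal.ofReal ‖M fun j => E1 (a j) (x j) t‖
        ≤ ENNReal.ofReal (∏ j, ‖E1 (a j) (x j) t‖) := by
          apply ENNReal.ofReal_le_ofReal
          refine (M.le_opNorm _).trans ?_
          have h3 : 0 ≤ ∏ j, ‖E1 (a j) (x j) t‖ := Finset.prod_nonneg fun j _ => norm_nonneg _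
          calc ‖M‖ * ∏ j, ‖E1 (a j) (x j) t‖ ≤ 1 * ∏ j, ‖E1 (a j) (x j) t‖ := by gcongr
            _ = _ := one_mul _
      _ = ∏ j, ‖E1 (a j) (x j) t‖ₑ := by
          rw [ENNReal.ofReal_prod_of_nonneg fun j _ => norm_nonneg _]
          apply Finset.prod_congr rfl
          intro j _
          rw [ofReal_norm]
  calc ∫⁻ x : Fin m₁ → ℝ, ‖EE (fun ξ => M (fun j => a j (ξ j))) (x, t)‖ₑ ^ q
      ≤ ∫⁻ x : Fin m₁ → ℝ, ∏ j, ‖E1 (a j) (x j) t‖ₑ ^ q := lintegral_mono h2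
    _ = ∏ j, ∫⁻ x : ℝ, ‖E1 (a j) x t‖ₑ ^ q :=
        lint_pi (fun j x => ‖E1 (a j) x t‖ₑ ^ q) fun j => (E1t_meas (ha j) t).enorm.pow_const q

/-- the exponent -/
noncomputable def A0 (n : ℕ) (q : ℝ) : ℝ := n * (q - 2) / 2

/-- the loss -/
noncomputable def ep (n : ℕ) (q : ℝ) : ℝ := (A0 n q - 1) / (2 * A0 n q)

lemma A0_gt {q : ℝ} (hn : 0 < n) (hq : 2 * ((n : ℝ) + 1) / n < q) : 1 < A0 n q := by
  have hn0 : (0 : ℝ) < n := by exact_mod_cast hn
  rw [div_lt_iff₀ hn0] at hq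
  unfold A0
  linarith

lemma ep_pos {q : ℝ} (hA : 1 < A0 n q) : 0 < ep n q := by
  unfold ep
  exact div_pos (by linarith) (by linarith)

/-- the weight -/
noncomputable def wt (n : ℕ) (q σ T t : ℝ) : ℝ≥0∞ :=
  ENNReal.ofReal ((max 1 (2 * Real.pi * σ * t - T)) ^ (-((A0 n q + 2 - 1) / 2)))

lemma wt_meas (n : ℕ) (q σ T : ℝ) : Measurable (wt n q σ T) := by
  unfold wt
  fun_prop

lemma wt_pow {q σ T : ℝ} (hn : 0 < n) (hA : 1 < A0 n q) (t : ℝ) (m : ℕ) :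
    ENNReal.ofReal ((max 1 (2 * Real.pi * σ * t - T)) ^ (-((1 - ep n q) * (q - 2)))) ^ m =
      wt n q σ T t ^ (2 * (m : ℝ) / n) := by
  have hn0 : (0 : ℝ) < n := by exact_mod_cast hn
  set M : ℝ := max 1 (2 * Real.pi * σ * t - T) with hM
  have hM1 : 1 ≤ M := le_max_left _ _
  have hM0 : 0 < M := by linarith
  unfold wt
  rw [← hM, ENNReal.ofReal_rpow_of_nonneg (by positivity) (by positivity), ← Real.rpow_mul hM0.le,
    ← ENNReal.ofReal_pow (by positivity), ← Real.rpow_natCast, ← Real.rpow_mul hM0.le]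
  congr 2
  have h1 : (1 - ep n q) * A0 n q = (A0 n q + 1) / 2 := by
    unfold ep
    field_simp
    ring
  have h2 : q - 2 = 2 * A0 n q / n := by
    unfold A0
    field_simp
  rw [h2]
  have h3 : (1 - ep n q) * (2 * A0 n q / n) = 2 * ((1 - ep n q) * A0 n q) / n := by ring
  rw [h3, h1]
  field_simp
  ring

lemma wt_int {q σ T : ℝ} (hσ : σ = 1 ∨ σ = -1) :
    ∫⁻ t in {t : ℝ | T < 2 * Real.pi * σ * t}, wt n q σ T t ≤ tint (A0 n q + 2) := by
  have hpi : (0 : ℝ) < 2 * Real.pi := by positivity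
  have hσ' : -σ = 1 ∨ -σ = -1 := by
    rcases hσ with h | h
    · right
      rw [h]
    · left
      rw [h]
      norm_num
  set F : ℝ → ℝ≥0∞ := fun τ => ENNReal.ofReal ((max 1 τ) ^ (-((A0 n q + 2 - 1) / 2))) with hF
  have hFm : Measurable F := by
    simp only [hF]
    fun_prop
  have h1 := Pool.Agent.TH277.CS.time_change (σ := -σ) (κ := 2 * Real.pi) hσ' hpi
    (T / (2 * Real.pi)) F hFm
  have hset : {t : ℝ | -σ * t < -(T / (2 * Real.pi))} = {t : ℝ | T < 2 * Real.pi * σ * t} := by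
    ext t
    simp only [mem_ofPred_eq]
    rw [neg_mul, neg_lt_neg_iff, div_lt_iff₀ hpi]
    constructor <;> intro h <;> linarith
  rw [hset] at h1
  have h2 : ∀ t, F (2 * Real.pi * (- -σ * t - T / (2 * Real.pi))) = wt n q σ T t := by
    intro t
    unfold wt
    simp only [hF]
    congr 3
    field_simp
  simp only [h2] at h1
  rw [h1]
  have h3 : ENNReal.ofReal (2 * Real.pi)⁻¹ ≤ 1 := by
    rw [ENNReal.ofReal_le_one]
    apply inv_le_one_of_one_le₀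
    linarith [Real.pi_gt_three]
  calc ENNReal.ofReal (2 * Real.pi)⁻¹ * ∫⁻ τ in Ioi (0 : ℝ), F τ
      ≤ 1 * ∫⁻ τ in Ioi (0 : ℝ), F τ := by gcongr
    _ = tint (A0 n q + 2) := by
        rw [one_mul]
        rfl

/-- The estimate. -/
theorem main (m₁ m₂ n : ℕ) (hm₂ : 1 ≤ m₂) (hn : n = m₁ + 2 * m₂) (q : ℝ)
    (hq : 2 * ((n : ℝ) + 1) / n < q) :
    ∃ C : ℝ≥0, ∀ (e : Fin m₁ ⊕ (Fin m₂ ⊕ Fin m₂) ≃ Fin n) (H : Type) [NormedAddCommGroup H]
      [InnerProductSpace ℂ H] [CompleteSpace H]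
      (M : ContinuousMultilinearMap ℂ (fun _ : Fin m₁ => H) ℂ) (a : Fin m₁ → ℝ → H),
      ‖M‖ ≤ 1 → (∀ j, Adm (a j)) → ∀ (σ T : ℝ), (σ = 1 ∨ σ = -1) →
      ∀ (S : Fin m₂ → Type) [∀ j, MeasurableSpace (S j)] (ν : ∀ j, Measure (S j))
        [∀ j, IsFiniteMeasure (ν j)] (g : ∀ j, S j → ℝ × ℝ → ℂ),
        (∀ j, Measurable (Function.uncurry (g j))) → (∀ j s, IsAtom σ T (g j s)) →
        ∫⁻ y in {y : (Fin n → ℝ) × ℝ | T < 2 * Real.pi * σ * y.2},
          ‖EE (fun ξ => M (fun j => a j ((Phi e ξ).1 j)) *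
            ∏ j, sup (ν j) (g j) ((Phi e ξ).2 j)) y‖ₑ ^ q ≤ C * ∏ j, ν j univ ^ q := by
  have hn2 : 2 ≤ n := by omega
  have hn0' : 0 < n := by omega
  have hn0 : (0 : ℝ) < n := by exact_mod_cast hn0'
  have hA : 1 < A0 n q := A0_gt hn0' hq
  have hε : 0 < ep n q := ep_pos hA
  have hq2 : 2 < q := by
    have h1 : 2 < 2 * ((n : ℝ) + 1) / n := by
      rw [lt_div_iff₀ hn0]
      linarith
    linarith
  have hq0 : 0 < q := by linarith
  obtain ⟨C, hC⟩ := mix n hn2 q hq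
  have hsum : 2 * (m₂ : ℝ) / n + ∑ _j : Fin m₁, 1 / (n : ℝ) = 1 := by
    rw [Finset.sum_const, Finset.card_univ, Fintype.card_fin, nsmul_eq_mul]
    have h1 : (n : ℝ) = m₁ + 2 * m₂ := by exact_mod_cast hn
    rw [mul_one_div, ← add_div, add_comm, ← h1, div_self hn0.ne']
  set K : ℝ≥0∞ := Kq (ep n q) q ^ m₂ *
    (tint (A0 n q + 2) ^ (2 * (m₂ : ℝ) / n) * ((C : ℝ≥0∞) ^ (1 / (n : ℝ))) ^ m₁) with hK
  have hKt : K ≠ ⊤ := by
    rw [hK]
    apply ENNReal.mul_ne_top (ENNReal.pow_ne_top (Kq_ne_top hq2))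
    apply ENNReal.mul_ne_top
    · exact ENNReal.rpow_ne_top_of_nonneg (by positivity) (tint_lt _ (by linarith)).ne
    · exact ENNReal.pow_ne_top (ENNReal.rpow_ne_top_of_nonneg (by positivity) ENNReal.coe_ne_top)
  refine ⟨K.toNNReal, ?_⟩
  intro e H _ _ _ M a hM ha σ T hσ S _ ν _ g hg hat
  rw [ENNReal.coe_toNNReal hKt]
  set s : (Fin m₁ → ℝ) → ℂ := fun ξ => M (fun j => a j (ξ j)) with hs
  have hSch : Sch m₁ s := ⟨H, inferInstance, inferInstance, inferInstance, M, a, hM, ha,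
    fun ξ => rfl⟩
  have hsm : StronglyMeasurable s := hSch.meas
  set G : Fin m₂ → ℝ × ℝ → ℂ := fun j => sup (ν j) (g j) with hG
  have hGm : ∀ j, StronglyMeasurable (G j) := fun j => sup_meas (ν j) (hg j)
  have hG0 : ∀ j x, x ∉ Q2 → G j x = 0 := fun j x hx => sup_supp (ν j) (hat j) hx
  set f : (Fin n → ℝ) → ℂ := fun ξ => s (Phi e ξ).1 * ∏ j, G j ((Phi e ξ).2 j) with hf
  have hfm : StronglyMeasurable f := by
    apply StronglyMeasurable.mul
    · exact hsm.comp_measurable (measurable_fst.comp (Phi_mp e).measurable)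
    · apply Finset.stronglyMeasurable_fun_prod
      intro j _
      exact (hGm j).comp_measurable ((measurable_pi_apply j).comp
        (measurable_snd.comp (Phi_mp e).measurable))
  have hEm : Measurable fun y : (Fin n → ℝ) × ℝ => ‖EE f y‖ₑ ^ q :=
    (EE_meas hfm).enorm.pow_const q
  set A : Set ℝ := {t | T < 2 * Real.pi * σ * t} with hAd
  have hAm : MeasurableSet A :=
    measurableSet_lt measurable_const (measurable_const.mul measurable_id)
  have hset : {y : (Fin n → ℝ) × ℝ | T < 2 * Real.pi * σ * y.2} = univ ×ˢ A := by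
    ext y
    simp [hAd]
  set Bj : Fin m₁ → ℝ → ℝ≥0∞ := fun j t => ∫⁻ x : ℝ, ‖E1 (a j) x t‖ₑ ^ q with hBj
  have hBm : ∀ j, Measurable (Bj j) := fun j =>
    ((E1_meas (ha j)).enorm.pow_const q).lintegral_prod_left'
  -- the bound at a fixed time
  have hfix : ∀ t : ℝ, ∫⁻ x : Fin n → ℝ, ‖EE f (x, t)‖ₑ ^ q ≤
      (Kq (ep n q) q ^ m₂ * ∏ j, ν j univ ^ q) *
        (wt n q σ T t ^ (2 * (m₂ : ℝ) / n) * ∏ j, (Bj j t ^ (n : ℝ)) ^ (1 / (n : ℝ))) := by
    intro t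
    set Z : (Fin m₁ → ℝ) × (Fin m₂ → ℝ × ℝ) → ℝ≥0∞ := fun z =>
      ‖EE s (z.1, t)‖ₑ ^ q * ∏ j, ‖E2 (G j) (z.2 j) t‖ₑ ^ q with hZ
    have hEs : Measurable fun x : Fin m₁ → ℝ => ‖EE s (x, t)‖ₑ ^ q :=
      ((EE_meas hsm).enorm.pow_const q).comp
        (by fun_prop : Measurable fun x : Fin m₁ → ℝ => ((x, t) : (Fin m₁ → ℝ) × ℝ))
    have hEg : ∀ j, Measurable fun y : ℝ × ℝ => ‖E2 (G j) y t‖ₑ ^ q := fun j =>
      (E2t_meas (G j) (hGm j) t).pow_const q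
    have hEgp : Measurable fun z : Fin m₂ → ℝ × ℝ => ∏ j, ‖E2 (G j) (z j) t‖ₑ ^ q :=
      Finset.measurable_prod _ fun j _ => (hEg j).comp (measurable_pi_apply j)
    have hZm : Measurable Z :=
      (hEs.comp measurable_fst).mul (hEgp.comp measurable_snd)
    calc ∫⁻ x : Fin n → ℝ, ‖EE f (x, t)‖ₑ ^ q = ∫⁻ x : Fin n → ℝ, Z (Phi e x) := by
          apply lintegral_congr
          intro x
          rw [hf, EE_blk e hsm hGm hG0 x t, enorm_mul, ENNReal.mul_rpow_of_nonneg _ _ hq0.le]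
          simp only [hZ]
          congr 1
          rw [ENNReal.prod_rpow_of_nonneg hq0.le]
          congr 1
          rw [← ofReal_norm, norm_prod, ENNReal.ofReal_prod_of_nonneg fun j _ => norm_nonneg _]
          apply Finset.prod_congr rfl
          intro j _
          rw [ofReal_norm]
      _ = ∫⁻ z, Z z := (Phi_mp e).lintegral_comp hZm
      _ = (∫⁻ x : Fin m₁ → ℝ, ‖EE s (x, t)‖ₑ ^ q) *
            ∫⁻ z : Fin m₂ → ℝ × ℝ, ∏ j, ‖E2 (G j) (z j) t‖ₑ ^ q := by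
          rw [Measure.volume_eq_prod]
          exact lintegral_prod_mul hEs.aemeasurable hEgp.aemeasurable
      _ = (∫⁻ x : Fin m₁ → ℝ, ‖EE s (x, t)‖ₑ ^ q) * ∏ j, ∫⁻ y, ‖E2 (G j) y t‖ₑ ^ q := by
          rw [lint_pi2 (fun j y => ‖E2 (G j) y t‖ₑ ^ q) hEg]
      _ ≤ (∏ j, Bj j t) * ∏ j, (Kq (ep n q) q * ν j univ ^ q *
            ENNReal.ofReal ((max 1 (2 * Real.pi * σ * t - T)) ^
              (-((1 - ep n q) * (q - 2))))) := by
          gcongr with j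
          · exact sch_time hq0 M hM ha t
          · exact sup_Lq hε hq2 hσ (ν j) (hg j) (hat j) t
      _ = _ := by
          rw [Finset.prod_mul_distrib, Finset.prod_mul_distrib, Finset.prod_const,
            Finset.prod_const, Finset.card_univ, Fintype.card_fin, wt_pow hn0' hA]
          have h1 : ∀ j, (Bj j t ^ (n : ℝ)) ^ (1 / (n : ℝ)) = Bj j t := by
            intro j
            rw [← ENNReal.rpow_mul, mul_one_div_cancel hn0.ne', ENNReal.rpow_one]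
          simp only [h1]
          ring
  rw [hset, Measure.volume_eq_prod, ← Measure.prod_restrict, Measure.restrict_univ,
    lintegral_prod_symm _ hEm.aemeasurable]
  calc ∫⁻ t in A, ∫⁻ x : Fin n → ℝ, ‖EE f (x, t)‖ₑ ^ q
      ≤ ∫⁻ t in A, (Kq (ep n q) q ^ m₂ * ∏ j, ν j univ ^ q) *
        (wt n q σ T t ^ (2 * (m₂ : ℝ) / n) * ∏ j, (Bj j t ^ (n : ℝ)) ^ (1 / (n : ℝ))) :=
        lintegral_mono hfix
    _ = (Kq (ep n q) q ^ m₂ * ∏ j, ν j univ ^ q) *
        ∫⁻ t in A, (wt n q σ T t ^ (2 * (m₂ : ℝ) / n) *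
          ∏ j, (Bj j t ^ (n : ℝ)) ^ (1 / (n : ℝ))) := by
        apply lintegral_const_mul
        apply Measurable.mul ((wt_meas n q σ T).pow_const _)
        exact Finset.measurable_prod _ fun j _ => ((hBm j).pow_const _).pow_const _
    _ ≤ (Kq (ep n q) q ^ m₂ * ∏ j, ν j univ ^ q) *
        ((∫⁻ t in A, wt n q σ T t) ^ (2 * (m₂ : ℝ) / n) *
          ∏ j, (∫⁻ t in A, Bj j t ^ (n : ℝ)) ^ (1 / (n : ℝ))) := by
        gcongr
        apply ENNReal.lintegral_mul_prod_norm_pow_le _ (wt_meas n q σ T).aemeasurable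
          (fun j _ => ((hBm j).pow_const _).aemeasurable) _ hsum (by positivity)
          (fun j _ => by positivity)
    _ ≤ (Kq (ep n q) q ^ m₂ * ∏ j, ν j univ ^ q) *
        (tint (A0 n q + 2) ^ (2 * (m₂ : ℝ) / n) * ∏ _j : Fin m₁, (C : ℝ≥0∞) ^ (1 / (n : ℝ))) := by
        gcongr with j
        · exact wt_int hσ
        · exact (setLIntegral_le_lintegral _ _).trans (hC H (a j) (ha j))
    _ = K * ∏ j, ν j univ ^ q := by
        rw [Finset.prod_const, Finset.card_univ, Fintype.card_fin, hK]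
        ring

end Pool.Agent.TH277.CB
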